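import Pool.Agent.H500.ME.Stm
import Pool.Graph.R_pool_sql_team_seeded_47a924f7.T6.H23.HK.Ord
import Pool.Graph.R_seed8.W528.Ord.Dens
import Pool.Graph.R_seed8.W401.Cheb.Frob

/-!
# ME (helper500), part A1: the prime ideal theorem and the zeta function at the edge
-/

set_option autoImplicit false

namespace Pool.Agent.H591.ME.MV1

open Complex Filter Topology NumberField IsDedekindDomain Ideal
open Pool.Agent.W540.BE (NormSys EP)
open Pool.Agent.Y773 (LI VM)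
open Pool.Agent.Y772.DK (ee LA LI_eq_exp VM_of_not ee_zero ee_le term_summable absNorm_pos')
open Pool.Agent.T6.H23.HK (PP PP_summable asIdeal_prime ee_prime nm normSys path_one two_le_nm)
open Pool.Agent.H500.ME

variable {K : Type} [Field K] [NumberField K]

/-- the term of the logarithm of the L-function -/
noncomputable def TT (ψ : Ideal (𝓞 K) →*₀ ℂ) (ε : ℝ) (𝔞 : Ideal (𝓞 K)) : ℂ :=
  ee ψ 𝔞 * ((absNorm 𝔞 : ℕ) : ℂ) ^ (-(1 + ε : ℂ))

/-- the logarithm of the L-function, exact formula -/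
theorem log_LI_eq (ψ : Ideal (𝓞 K) →*₀ ℂ) (hψ : ∀ 𝔞, ‖ψ 𝔞‖ ≤ 1) {ε : ℝ} (hε : 0 < ε) :
    Real.log ‖LI ψ (1 + ε)‖ = (EP (nm K) ε fun v => (ψ v.asIdeal).re) +
      (∑' 𝔞 : PP K, TT ψ ε 𝔞).re := by
  classical
  have hre : 1 < (1 + ε : ℂ).re := by simp [hε]
  have hexp := LI_eq_exp ψ hψ hre
  rw [hexp, Complex.norm_exp, Real.log_exp]
  set T : Ideal (𝓞 K) → ℂ := TT ψ ε with hT
  have hTs : Summable T := (term_summable (ee_zero ψ) (ee_le ψ hψ) hre).of_norm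
  have hLA : LA (ee ψ) (1 + ε) = ∑' 𝔞, T 𝔞 := rfl
  rw [hLA]
  -- the primes
  have hinj : Function.Injective (HeightOneSpectrum.asIdeal (R := 𝓞 K)) := fun v w h =>
    HeightOneSpectrum.ext h
  set P : Set (Ideal (𝓞 K)) := Set.range (HeightOneSpectrum.asIdeal (R := 𝓞 K)) with hP
  have hsplit : ∑' 𝔞, T 𝔞 = (∑' 𝔞 : P, T 𝔞) + ∑' 𝔞 : (Pᶜ : Set (Ideal (𝓞 K))), T 𝔞 :=
    (hTs.subtype P).tsum_add_tsum_compl (hTs.subtype Pᶜ) |>.symm
  have h1 : ∑' 𝔞 : P, T 𝔞 = ∑' v : HeightOneSpectrum (𝓞 K), T v.asIdeal := tsum_range T hinj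
  have h2 : (∑' v : HeightOneSpectrum (𝓞 K), T v.asIdeal).re =
      EP (nm K) ε fun v => (ψ v.asIdeal).re := by
    have hs' : Summable fun v : HeightOneSpectrum (𝓞 K) => T v.asIdeal := hTs.comp_injective hinj
    rw [Complex.re_tsum hs', EP]
    refine tsum_congr fun v => ?_
    simp only [hT, TT]
    rw [ee_prime]
    have h3 : ((absNorm v.asIdeal : ℕ) : ℂ) ^ (-(1 + ε : ℂ)) =
        (((nm K v : ℝ) ^ (-(1 + ε)) : ℝ) : ℂ) := by
      rw [Complex.ofReal_cpow (by positivity)]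
      push_cast
      rfl
    rw [h3, Complex.re_mul_ofReal]
  rw [hsplit, Complex.add_re, h1, h2]
  -- the rest
  have hR : ∀ 𝔞 : Ideal (𝓞 K), 𝔞 ∉ P → 𝔞 ∉ PP K → T 𝔞 = 0 := by
    intro 𝔞 h3 h4
    simp only [hT, TT]
    by_cases h5 : IsPrimePow 𝔞
    · exfalso
      have h6 : Prime 𝔞 := by
        by_contra h6
        exact h4 ⟨h5, h6⟩
      exact h3 ⟨⟨𝔞, isPrime_of_prime h6, h6.ne_zero⟩, rfl⟩
    · unfold ee
      rw [VM_of_not h5, zero_div, Complex.ofReal_zero, zero_mul, zero_mul]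
  have hsub : PP K ⊆ Pᶜ := by
    rintro 𝔞 h3 ⟨v, rfl⟩
    exact h3.2 (asIdeal_prime v)
  have h5 : ∑' 𝔞 : (Pᶜ : Set (Ideal (𝓞 K))), T 𝔞 = ∑' 𝔞 : PP K, T 𝔞 := by
    rw [tsum_subtype, tsum_subtype]
    refine tsum_congr fun 𝔞 => ?_
    by_cases h6 : 𝔞 ∈ PP K
    · rw [Set.indicator_of_mem h6, Set.indicator_of_mem (hsub h6)]
    · rw [Set.indicator_of_notMem h6]
      by_cases h7 : 𝔞 ∈ Pᶜ
      · rw [Set.indicator_of_mem h7, hR 𝔞 h7 h6]
      · rw [Set.indicator_of_notMem h7]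
  rw [h5]

/-- the sum over the higher powers converges -/
theorem rest_tendsto (ψ : Ideal (𝓞 K) →*₀ ℂ) (hψ : ∀ 𝔞, ‖ψ 𝔞‖ ≤ 1) :
    Tendsto (fun ε : ℝ => (∑' 𝔞 : PP K, TT ψ ε 𝔞).re) (𝓝[>] 0)
      (𝓝 (∑' 𝔞 : PP K, TT ψ 0 𝔞).re) := by
  refine (Complex.continuous_re.tendsto _).comp ?_
  refine tendsto_tsum_of_dominated_convergence (bound := fun 𝔞 : PP K =>
    ((absNorm 𝔞.1 : ℕ) : ℝ)⁻¹) PP_summable (fun 𝔞 => ?_) ?_
  · have h𝔞 : 𝔞.1 ≠ 0 := 𝔞.2.1.ne_zero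
    have h8 := absNorm_pos' h𝔞
    have h9 : ((absNorm 𝔞.1 : ℕ) : ℂ) ≠ 0 := by exact_mod_cast h8.ne'
    have hc : Continuous fun ε : ℝ => TT ψ ε 𝔞.1 := by
      unfold TT
      refine continuous_const.mul ?_
      refine Continuous.const_cpow (by fun_prop) (Or.inl h9)
    exact (hc.tendsto 0).mono_left nhdsWithin_le_nhds
  · filter_upwards [self_mem_nhdsWithin] with ε hε 𝔞
    have hε' : (0 : ℝ) < ε := hε
    have h𝔞 : 𝔞.1 ≠ 0 := 𝔞.2.1.ne_zero
    have h8 := absNorm_pos' h𝔞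
    have h9 : (1 : ℝ) ≤ absNorm 𝔞.1 := by exact_mod_cast h8
    unfold TT
    rw [norm_mul, Complex.norm_natCast_cpow_of_pos h8]
    calc ‖ee ψ 𝔞.1‖ * (absNorm 𝔞.1 : ℝ) ^ (-(1 + ε : ℂ)).re
        ≤ 1 * (absNorm 𝔞.1 : ℝ) ^ (-1 : ℝ) := by
          refine mul_le_mul (ee_le ψ hψ _) ?_ (by positivity) zero_le_one
          refine Real.rpow_le_rpow_of_exponent_le h9 ?_
          simp
          exact hε'.le
      _ = _ := by rw [one_mul, Real.rpow_neg_one]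

/-- the sum over the primes near the edge -/
theorem EP_tendsto (K : Type) [Field K] [NumberField K] : ∃ c : ℝ,
    Tendsto (fun ε : ℝ => (EP (nm K) ε fun _ => 1) + Real.log ε) (𝓝[>] 0) (𝓝 c) := by
  obtain ⟨g, hg, hg0, h⟩ := Pool.Agent.Y772.NZ.near_one K
  set ψ := Pool.Agent.Y772.NZ.one K with hψ
  have hψ1 := Pool.Agent.Y772.NZ.one_norm K
  have ht := path_one
  have hglog : Tendsto (fun ε : ℝ => Real.log ‖g (1 + ε)‖) (𝓝[>] 0) (𝓝 (Real.log ‖g 1‖)) :=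
    ((hg.continuousAt.tendsto.comp ht).norm.log (norm_ne_zero_iff.2 hg0))
  refine ⟨Real.log ‖g 1‖ - (∑' 𝔞 : PP K, TT ψ 0 𝔞).re, ?_⟩
  refine (hglog.sub (rest_tendsto ψ hψ1)).congr' ?_
  filter_upwards [ht.eventually h, self_mem_nhdsWithin,
    (ht.eventually (hg.continuousAt.eventually_ne hg0))] with ε h1 h2 h5
  have hε : (0 : ℝ) < ε := h2
  have hre : 1 < ((1 : ℂ) + (ε : ℂ)).re := by
    rw [add_re, one_re, ofReal_re]
    linarith
  have h6 := h1 hre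
  have h7 := log_LI_eq ψ hψ1 hε
  rw [h6, add_sub_cancel_left, norm_div, Complex.norm_real, Real.norm_eq_abs, abs_of_pos hε,
    Real.log_div (norm_ne_zero_iff.2 h5) hε.ne'] at h7
  have h8 : (fun v : HeightOneSpectrum (𝓞 K) => (ψ v.asIdeal).re) = fun _ => 1 := by
    funext v
    rw [hψ, Pool.Agent.Y772.NZ.one_ne K v.ne_bot, one_re]
  rw [h8] at h7
  linarith

theorem edge (K : Type) [Field K] [NumberField K] :
    MVe (fun _ : HeightOneSpectrum (𝓞 K) => (1 : ℂ)) 1 := by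
  obtain ⟨c, hc⟩ := EP_tendsto K
  refine ⟨(c : ℂ), ?_⟩
  have h1 : Tendsto (fun s : ℝ => s - 1) (𝓝[>] 1) (𝓝[>] 0) := by
    refine tendsto_nhdsWithin_iff.2 ⟨?_, ?_⟩
    · have : Tendsto (fun s : ℝ => s - 1) (𝓝 1) (𝓝 (1 - 1)) := (continuous_sub_right 1).tendsto 1
      rw [sub_self] at this
      exact this.mono_left nhdsWithin_le_nhds
    · filter_upwards [self_mem_nhdsWithin] with s hs
      have : (1 : ℝ) < s := hs
      exact sub_pos.2 this
  have h2 := (Complex.continuous_ofReal.tendsto c).comp (hc.comp h1)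
  refine h2.congr fun s => ?_
  show (((EP (nm K) (s - 1) fun _ => 1) + Real.log (s - 1) : ℝ) : ℂ) = _
  rw [Complex.ofReal_add, one_mul]
  congr 1
  unfold EP
  rw [Complex.ofReal_tsum]
  refine tsum_congr fun v => ?_
  rw [Complex.ofReal_mul, Complex.ofReal_one, show -(1 + (s - 1)) = -s by ring]
  rfl

theorem nat (K : Type) [Field K] [NumberField K] :
    MVn (fun _ : HeightOneSpectrum (𝓞 K) => (1 : ℂ)) 1 := by
  have h1 := Pool.Agent.W528.Ord.chebK K ⊤ isOpen_univ Set.univ (fun _ _ _ => Set.mem_univ _)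
    (fun _ _ _ _ => Set.mem_univ _)
  have e1 : ((((QuotientGroup.mk : Pool.Agent.W401.Cheb.GK K →
      Pool.Agent.W401.Cheb.GK K ⧸ (⊤ : Subgroup (Pool.Agent.W401.Cheb.GK K))) ''
        Set.univ).ncard : ℝ) /
      (Nat.card (Pool.Agent.W401.Cheb.GK K ⧸ (⊤ : Subgroup (Pool.Agent.W401.Cheb.GK K))) : ℝ)) =
      1 := by
    rw [Set.image_univ, Set.range_eq_univ.2 QuotientGroup.mk_surjective, Set.ncard_univ]
    have h2 : Nat.card (Pool.Agent.W401.Cheb.GK K ⧸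
        (⊤ : Subgroup (Pool.Agent.W401.Cheb.GK K))) = 1 := Subgroup.index_top
    rw [h2]
    norm_num
  rw [e1] at h1
  have h3 := (Complex.continuous_ofReal.tendsto (1 : ℝ)).comp h1
  rw [Complex.ofReal_one] at h3
  refine h3.congr fun x => ?_
  show ((Pool.Agent.W401.Cheb.dens _ x : ℝ) : ℂ) = _
  unfold Pool.Agent.W401.Cheb.dens
  rw [Complex.ofReal_div, Complex.ofReal_natCast, Complex.ofReal_natCast]
  congr 1
  have h4 : Nat.card {v : HeightOneSpectrum (𝓞 K) // absNorm v.asIdeal ≤ x ∧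
      ∃ σ ∈ (Set.univ : Set (Pool.Agent.W401.Cheb.GK K)), Pool.Agent.W401.Cheb.IsFrob v σ} =
      (pl K x).card := by
    have h5 : {v : HeightOneSpectrum (𝓞 K) | absNorm v.asIdeal ≤ x ∧
        ∃ σ ∈ (Set.univ : Set (Pool.Agent.W401.Cheb.GK K)), Pool.Agent.W401.Cheb.IsFrob v σ} =
        (pl K x : Set (HeightOneSpectrum (𝓞 K))) := by
      unfold pl
      rw [Set.Finite.coe_toFinset]
      ext v
      constructor
      · intro h
        exact h.1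
      · intro h
        obtain ⟨σ, hσ⟩ := Pool.Agent.W401.Frob.exists_frob v
        exact ⟨h, σ, Set.mem_univ _, hσ⟩
    have h6 := Set.ncard_coe_finset (pl K x)
    rw [← h5] at h6
    exact h6
  rw [h4, Finset.sum_const, nsmul_eq_mul, mul_one]

theorem main : Pool.Agent.H500.ME.S_MV1 := by
  intro K _ _
  exact ⟨⟨1, fun v => by rw [norm_one]⟩, nat K, edge K⟩

end Pool.Agent.H591.ME.MV1
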